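import Pool.Agent.W988.WD.Defs

/-!
# Project WD (helper988), part GEN
-/

set_option autoImplicit false
open scoped InnerProductSpace Topology
open Filter

namespace Pool.Agent.W101.WD

open Pool.Agent.W988.WD

variable {H : Type} [NormedAddCommGroup H] [InnerProductSpace ℂ H] [CompleteSpace H]

lemma adj (a : H →L[ℂ] H) (x y : H) : ⟪x, a y⟫_ℂ = ⟪star a x, y⟫_ℂ := by
  rw [ContinuousLinearMap.star_eq_adjoint, ContinuousLinearMap.adjoint_inner_left]

lemma prj_norm {e : H →L[ℂ] H} (h : Prj e) : ‖e‖ ≤ 1 := by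
  have h1 : ‖star e * e‖ = ‖e‖ * ‖e‖ := CStarRing.norm_star_mul_self
  rw [h.1, h.2] at h1
  by_contra hc
  push Not at hc
  nlinarith

section
variable {N : VonNeumannAlgebra H} {e : H →L[ℂ] H} {g : ℕ → (H →L[ℂ] H)}

lemma g_norm (hg : MUnits N e g) (n : ℕ) : ‖g n‖ ≤ 1 := by
  have h1 : ‖star (g n) * g n‖ = ‖g n‖ * ‖g n‖ := CStarRing.norm_star_mul_self
  rw [hg.ini] at h1
  have h2 := prj_norm hg.prj
  by_contra hc
  push Not at hc
  nlinarith

lemma g_e (hg : MUnits N e g) (n : ℕ) : g n * e = g n := by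
  have h1 : star (g n * e - g n) * (g n * e - g n) = 0 := by
    rw [star_sub, star_mul, hg.prj.1, sub_mul, mul_sub, mul_sub, mul_assoc e, ← mul_assoc _ (g n),
      hg.ini, mul_assoc e, hg.ini, ← mul_assoc, hg.prj.2, hg.prj.2]
    simp
  have h2 := CStarRing.star_mul_self_eq_zero_iff (g n * e - g n) |>.1 h1
  exact sub_eq_zero.1 h2

lemma e_gs (hg : MUnits N e g) (n : ℕ) : e * star (g n) = star (g n) := by
  have := congrArg star (g_e hg n)
  rwa [star_mul, hg.prj.1] at this

/-- orthogonality of the ranges -/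
lemma norm_sum_sq (hg : MUnits N e g) (v : ℕ → H) (n : ℕ) :
    ‖∑ k ∈ Finset.range n, g k (v k)‖ ^ 2 = ∑ k ∈ Finset.range n, ‖g k (v k)‖ ^ 2 := by
  induction n with
  | zero => simp
  | succ n ih =>
    rw [Finset.sum_range_succ, Finset.sum_range_succ, ← ih]
    have h0 : ⟪∑ k ∈ Finset.range n, g k (v k), g n (v n)⟫_ℂ = 0 := by
      rw [sum_inner]
      refine Finset.sum_eq_zero fun k hk => ?_
      have hkn : n ≠ k := by
        have := Finset.mem_range.1 hk
        omega
      rw [adj, ← mul_apply_eq_comp, hg.ort n k hkn]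
      simp
    have := norm_add_sq_eq_norm_sq_add_norm_sq_of_inner_eq_zero _ _ h0
    simpa [sq] using this

lemma g_le (hg : MUnits N e g) (n : ℕ) (v : H) : ‖g n v‖ ≤ ‖v‖ := by
  have := (g n).le_of_opNorm_le (g_norm hg n) v
  simpa using this

/-- Bessel -/
lemma bessel (hg : MUnits N e g) (ξ : H) (n : ℕ) :
    ∑ k ∈ Finset.range n, ‖star (g k) ξ‖ ^ 2 ≤ ‖ξ‖ ^ 2 := by
  set S : ℝ := ∑ k ∈ Finset.range n, ‖star (g k) ξ‖ ^ 2 with hS
  set η : H := ∑ k ∈ Finset.range n, g k (star (g k) ξ) with hη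
  have hS0 : 0 ≤ S := Finset.sum_nonneg fun k _ => sq_nonneg _
  have h1 : ⟪ξ, η⟫_ℂ = (S : ℂ) := by
    rw [hη, inner_sum, hS]
    push_cast
    refine Finset.sum_congr rfl fun k _ => ?_
    rw [adj, inner_self_eq_norm_sq_to_K]
    rfl
  have h2 : ‖η‖ ^ 2 ≤ S := by
    rw [hη, norm_sum_sq hg]
    exact Finset.sum_le_sum fun k _ => pow_le_pow_left₀ (norm_nonneg _) (g_le hg k _) 2
  have h3 : S ≤ ‖ξ‖ * ‖η‖ := by
    have := norm_inner_le_norm (𝕜 := ℂ) ξ η
    rw [h1, Complex.norm_real, Real.norm_of_nonneg hS0] at this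
    exact this
  have h4 : S ^ 2 ≤ ‖ξ‖ ^ 2 * S := by
    calc S ^ 2 ≤ (‖ξ‖ * ‖η‖) ^ 2 := pow_le_pow_left₀ hS0 h3 2
      _ = ‖ξ‖ ^ 2 * ‖η‖ ^ 2 := by ring
      _ ≤ ‖ξ‖ ^ 2 * S := mul_le_mul_of_nonneg_left h2 (sq_nonneg _)
  rcases hS0.eq_or_lt with h | h
  · rw [← h]
    positivity
  · nlinarith

/-- the diagonal sums -/
noncomputable def TT (g : ℕ → (H →L[ℂ] H)) (b : H →L[ℂ] H) (n : ℕ) : H →L[ℂ] H :=
  ∑ k ∈ Finset.range n, g k * b * star (g k)

lemma TT_norm (hg : MUnits N e g) (b : H →L[ℂ] H) (n : ℕ) : ‖TT g b n‖ ≤ ‖b‖ := by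
  refine ContinuousLinearMap.opNorm_le_bound _ (norm_nonneg _) fun ξ => ?_
  have e1 : TT g b n ξ = ∑ k ∈ Finset.range n, g k (b (star (g k) ξ)) := by
    rw [TT, _root_.sum_apply]
    rfl
  have h1 : ‖TT g b n ξ‖ ^ 2 ≤ (‖b‖ * ‖ξ‖) ^ 2 := by
    rw [e1, norm_sum_sq hg (fun k => b (star (g k) ξ))]
    calc ∑ k ∈ Finset.range n, ‖g k (b (star (g k) ξ))‖ ^ 2
        ≤ ∑ k ∈ Finset.range n, ‖b‖ ^ 2 * ‖star (g k) ξ‖ ^ 2 := by
          refine Finset.sum_le_sum fun k _ => ?_
          rw [← mul_pow]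
          exact pow_le_pow_left₀ (norm_nonneg _)
            ((g_le hg k _).trans (b.le_opNorm _)) 2
      _ = ‖b‖ ^ 2 * ∑ k ∈ Finset.range n, ‖star (g k) ξ‖ ^ 2 := by rw [Finset.mul_sum]
      _ ≤ ‖b‖ ^ 2 * ‖ξ‖ ^ 2 := mul_le_mul_of_nonneg_left (bessel hg ξ n) (sq_nonneg _)
      _ = _ := by ring
  exact (sq_le_sq₀ (norm_nonneg _) (by positivity)).1 h1

lemma TT_g (hg : MUnits N e g) {b : H →L[ℂ] H} (hb : b * e = b) {n i : ℕ} (hi : i < n) :
    TT g b n * g i = g i * b := by
  rw [TT, Finset.sum_mul, Finset.sum_eq_single i]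
  · rw [mul_assoc, hg.ini, mul_assoc, hb]
  · intro k _ hk
    rw [mul_assoc, hg.ort k i hk, mul_zero]
  · intro h
    exact absurd (Finset.mem_range.2 hi) h

lemma gs_TT (hg : MUnits N e g) {b : H →L[ℂ] H} (hb : e * b = b) {n i : ℕ} (hi : i < n) :
    star (g i) * TT g b n = b * star (g i) := by
  rw [TT, Finset.mul_sum, Finset.sum_eq_single i]
  · rw [← mul_assoc, ← mul_assoc, hg.ini, hb]
  · intro k _ hk
    rw [← mul_assoc, ← mul_assoc, hg.ort i k (Ne.symm hk), zero_mul, zero_mul]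
  · intro h
    exact absurd (Finset.mem_range.2 hi) h

/-- amplification -/
lemma exists_D (h : S_CPT) (hg : MUnits N e g) {b : H →L[ℂ] H} (hbN : b ∈ N) (hb : b * e = b)
    (hb' : e * b = b) : ∃ D ∈ N, (∀ i, D * g i = g i * b) ∧
      ∀ i, star (g i) * D = b * star (g i) := by
  set U : Ultrafilter ℕ := Filter.hyperfilter ℕ with hU
  obtain ⟨h1, h2⟩ := h H ℕ U (TT g b)
  obtain ⟨D, _, hD⟩ := h1 ‖b‖ (TT_norm hg b)
  have hDN : D ∈ N := by
    refine h2 D hD N fun n => ?_
    rw [TT]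
    exact sum_mem fun k _ => mul_mem (mul_mem (hg.mem k) hbN) (star_mem (hg.mem k))
  have hev : ∀ i : ℕ, ∀ᶠ n in (U : Filter ℕ), i < n := fun i =>
    (eventually_gt_atTop i).filter_mono Nat.hyperfilter_le_atTop
  refine ⟨D, hDN, fun i => ?_, fun i => ?_⟩
  · ext ξ
    refine ext_inner_left ℂ fun η => ?_
    have h3 : Tendsto (fun n => ⟪η, TT g b n (g i ξ)⟫_ℂ) (U : Filter ℕ) (𝓝 ⟪η, D (g i ξ)⟫_ℂ) :=
      hD (g i ξ) η
    have h4 : Tendsto (fun n => ⟪η, TT g b n (g i ξ)⟫_ℂ) (U : Filter ℕ)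
        (𝓝 ⟪η, g i (b ξ)⟫_ℂ) := by
      refine tendsto_const_nhds.congr' ?_
      filter_upwards [hev i] with n hn
      have := congrArg (fun T : H →L[ℂ] H => T ξ) (TT_g hg hb hn)
      simp only [mul_apply_eq_comp] at this
      rw [this]
    exact tendsto_nhds_unique h3 h4
  · ext ξ
    refine ext_inner_left ℂ fun η => ?_
    have h3 : Tendsto (fun n => ⟪g i η, TT g b n ξ⟫_ℂ) (U : Filter ℕ) (𝓝 ⟪g i η, D ξ⟫_ℂ) :=
      hD ξ (g i η)
    have h5 : ∀ T : H →L[ℂ] H, ⟪g i η, T ξ⟫_ℂ = ⟪η, star (g i) (T ξ)⟫_ℂ := by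
      intro T
      rw [adj (star (g i)), star_star]
    have h4 : Tendsto (fun n => ⟪g i η, TT g b n ξ⟫_ℂ) (U : Filter ℕ)
        (𝓝 ⟪η, b (star (g i) ξ)⟫_ℂ) := by
      refine tendsto_const_nhds.congr' ?_
      filter_upwards [hev i] with n hn
      have := congrArg (fun T : H →L[ℂ] H => T ξ) (gs_TT hg hb' hn)
      simp only [mul_apply_eq_comp] at this
      rw [h5, this]
    have h6 := tendsto_nhds_unique h3 h4
    rw [h5] at h6
    exact h6

end

lemma isClosed_N (N : VonNeumannAlgebra H) : IsClosed (N : Set (H →L[ℂ] H)) := by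
  have h := N.centralizer_centralizer
  rw [← h]
  exact Set.isClosed_centralizer _

/-- what commutes with the unitaries of the relative commutant commutes with all of it -/
lemma comm_of_unitary (N : VonNeumannAlgebra H) (s : Set (H →L[ℂ] H))
    (hs : ∀ a ∈ s, star a ∈ s) (z : H →L[ℂ] H)
    (hz : ∀ u ∈ unitary (H →L[ℂ] H), u ∈ N → (∀ a ∈ s, u * a = a * u) → z * u = u * z)
    (y : H →L[ℂ] H) (hy : y ∈ N) (hys : ∀ a ∈ s, y * a = a * y) : z * y = y * z := by
  set P : StarSubalgebra ℂ (H →L[ℂ] H) := N.toStarSubalgebra ⊓ StarSubalgebra.centralizer ℂ s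
    with hP
  have hmem : ∀ x, x ∈ P ↔ x ∈ N ∧ ∀ a ∈ s, x * a = a * x := by
    intro x
    rw [hP, StarSubalgebra.mem_inf, StarSubalgebra.mem_centralizer_iff]
    constructor
    · rintro ⟨h1, h2⟩
      exact ⟨h1, fun a ha => ((h2 a ha).1).symm⟩
    · rintro ⟨h1, h2⟩
      exact ⟨h1, fun a ha => ⟨(h2 a ha).symm, (h2 _ (hs a ha)).symm⟩⟩
  have hclosed : IsClosed (P : Set (H →L[ℂ] H)) := by
    have e1 : (P : Set (H →L[ℂ] H)) = (N : Set (H →L[ℂ] H)) ∩ Set.centralizer s := by
      ext x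
      rw [SetLike.mem_coe, hmem, Set.mem_inter_iff, Set.mem_centralizer_iff]
      exact and_congr Iff.rfl ⟨fun h a ha => (h a ha).symm, fun h a ha => (h a ha).symm⟩
    rw [e1]
    exact (isClosed_N N).inter (Set.isClosed_centralizer _)
  letI : CStarAlgebra P := by
    haveI := hclosed
    exact StarSubalgebra.cstarAlgebra P
  have hspan : (⟨y, (hmem y).2 ⟨hy, hys⟩⟩ : P) ∈ Submodule.span ℂ (unitary P : Set P) := by
    rw [CStarAlgebra.span_unitary]
    exact Submodule.mem_top
  have key : ∀ x : P, x ∈ Submodule.span ℂ (unitary P : Set P) →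
      z * (x : H →L[ℂ] H) = (x : H →L[ℂ] H) * z := by
    intro x hx
    induction hx using Submodule.span_induction with
    | mem u hu =>
      have hu1 : (u : H →L[ℂ] H) ∈ unitary (H →L[ℂ] H) := by
        rw [SetLike.mem_coe, Unitary.mem_iff] at hu
        rw [Unitary.mem_iff]
        exact ⟨congrArg Subtype.val hu.1, congrArg Subtype.val hu.2⟩
      have hu2 := (hmem u).1 u.2
      exact hz u hu1 hu2.1 hu2.2
    | zero => simp
    | add a b _ _ ha hb =>
      push_cast
      rw [mul_add, add_mul, ha, hb]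
    | smul c a _ ha =>
      push_cast
      rw [mul_smul_comm, smul_mul_assoc, ha]
  exact key _ hspan

theorem p_GEN (h : S_CPT) : S_GEN := by
  intro H _ _ _ N e g hg z hz hzu y hy
  have he := hg.prj
  -- `z` commutes with `D` in the relative commutant
  have hcomm : ∀ D ∈ N, (∀ i j, D * (g i * star (g j)) = g i * star (g j) * D) →
      z * D = D * z := by
    intro D hD hDc
    refine comm_of_unitary N {a | ∃ i j, a = g i * star (g j)} ?_ z ?_ D hD ?_
    · rintro _ ⟨i, j, rfl⟩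
      exact ⟨j, i, by rw [star_mul, star_star]⟩
    · intro u hu huN hus
      exact hzu u hu huN fun i j => hus _ ⟨i, j, rfl⟩
    · rintro _ ⟨i, j, rfl⟩
      exact hDc i j
  -- `z` commutes with `e_ii y e_jj`
  have h1 : ∀ i j, z * (g i * star (g i) * y * (g j * star (g j))) =
      g i * star (g i) * y * (g j * star (g j)) * z := by
    intro i j
    set b : H →L[ℂ] H := star (g i) * y * g j with hb
    have hbN : b ∈ N := mul_mem (mul_mem (star_mem (hg.mem i)) hy) (hg.mem j)
    have hbe : b * e = b := by rw [hb, mul_assoc, g_e hg]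
    have heb : e * b = b := by rw [hb, ← mul_assoc, ← mul_assoc, e_gs hg]
    obtain ⟨D, hDN, hD1, hD2⟩ := exists_D h hg hbN hbe heb
    have hDc : ∀ i j, D * (g i * star (g j)) = g i * star (g j) * D := by
      intro i' j'
      rw [← mul_assoc, hD1, mul_assoc (g i') (star (g j')), hD2, mul_assoc]
    have hzD := hcomm D hDN hDc
    have e1 : g i * star (g i) * y * (g j * star (g j)) = D * (g i * star (g j)) := by
      rw [← mul_assoc D, hD1, hb]
      simp only [mul_assoc]
    rw [e1, ← mul_assoc, hzD, mul_assoc, hz i j, ← mul_assoc]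
  -- the commutator
  set X : H →L[ℂ] H := z * y - y * z with hX
  have h2 : ∀ i j, star (g i) * X * g j = 0 := by
    intro i j
    have e2 : star (g i) * (g i * star (g i)) = star (g i) := by
      rw [← mul_assoc, hg.ini, e_gs hg]
    have e3 : g j * star (g j) * g j = g j := by
      rw [mul_assoc, hg.ini, g_e hg]
    have e4 : g i * star (g i) * X * (g j * star (g j)) = 0 := by
      have h3 := h1 i j
      have h4 := hz i i
      have h5 := hz j j
      rw [hX, mul_sub, sub_mul, sub_eq_zero]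
      calc g i * star (g i) * (z * y) * (g j * star (g j))
          = g i * star (g i) * z * (y * (g j * star (g j))) := by simp only [mul_assoc]
        _ = z * (g i * star (g i)) * (y * (g j * star (g j))) := by rw [h4]
        _ = z * (g i * star (g i) * y * (g j * star (g j))) := by simp only [mul_assoc]
        _ = g i * star (g i) * y * (g j * star (g j)) * z := h3
        _ = g i * star (g i) * y * (g j * star (g j) * z) := by simp only [mul_assoc]
        _ = g i * star (g i) * y * (z * (g j * star (g j))) := by rw [h5]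
        _ = g i * star (g i) * (y * z) * (g j * star (g j)) := by simp only [mul_assoc]
    calc star (g i) * X * g j
        = star (g i) * (g i * star (g i)) * X * (g j * star (g j) * g j) := by rw [e2, e3]
      _ = star (g i) * (g i * star (g i) * X * (g j * star (g j))) * g j := by
          simp only [mul_assoc]
      _ = 0 := by rw [e4, mul_zero, zero_mul]
  have h3 : ∀ j, X * g j = 0 := by
    intro j
    ext ξ
    refine hg.tot _ fun i => ?_
    have := congrArg (fun T : H →L[ℂ] H => T ξ) (h2 i j)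
    simpa [mul_assoc] using this
  have h4 : star X = 0 := by
    ext ξ
    refine hg.tot _ fun j => ?_
    have h5 : star (g j) * star X = 0 := by
      rw [← star_mul, h3, star_zero]
    have := congrArg (fun T : H →L[ℂ] H => T ξ) h5
    simpa using this
  have h5 : X = 0 := by
    rw [← star_star X, h4, star_zero]
  exact sub_eq_zero.1 h5

end Pool.Agent.W101.WD
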